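import Mathlib
import Pool.Agent.Helper259.Selmer.Gal

set_option autoImplicit false

/-! The roots of the Selmer polynomials have no multiplicative relations except the norm. -/

namespace Pool.Agent.TH239.SM

open NumberField Module Polynomial
open Pool.Agent.Helper259.Selmer

/-- the roots of the Selmer polynomial, with the full symmetric group acting (after helper832) -/
theorem roots_rat (Ω : Type) [Field Ω] [CharZero Ω] [IsAlgClosed Ω] [Normal ℚ Ω]
    {p : ℕ} (hp : p.Prime) :
    ∃ (ι : Type) (_ : Fintype ι) (r : ι → Ω), Fintype.card ι = p ∧ Function.Injective r ∧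
      (∀ i, r i ^ p = r i + 1) ∧
      ∀ τ : Equiv.Perm ι, ∃ g : Ω ≃ₐ[ℚ] Ω, ∀ i, g (r i) = r (τ i) := by
  classical
  set P : ℚ[X] := X ^ p - X - 1 with hP
  set L := IntermediateField.adjoin ℚ (P.rootSet Ω) with hL
  have h1 : IsSplittingField ℚ L P :=
    IntermediateField.adjoin_rootSet_isSplittingField (IsAlgClosed.splits _)
  have h2 : FiniteDimensional ℚ L := IsSplittingField.finiteDimensional L P
  have h3 : NumberField L := ⟨⟩
  have hsep : P.Separable := (X_pow_sub_X_sub_one_irreducible_rat hp.ne_one).separable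
  have h4 : IsGalois ℚ L := IsGalois.of_separable_splitting_field hsep
  have hb := bijective (L := L) hp h1
  have hF : (F p).map (algebraMap ℤ L) = P.map (algebraMap ℚ L) := by
    rw [F_map, hP]; simp
  have hsF : ((F p).map (algebraMap ℤ L)).Splits := by rw [hF]; exact h1.splits
  have hcard := card_rootSet_int hp.two_le hsF
  refine ⟨(F p).rootSet (𝓞 L), inferInstance, fun i => (((i : 𝓞 L) : L) : Ω), hcard, ?_, ?_, ?_⟩
  · intro i j hij
    have h5 : ((i : 𝓞 L) : L) = ((j : 𝓞 L) : L) := Subtype.ext hij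
    exact Subtype.ext (RingOfIntegers.ext h5)
  · intro i
    have h6 := i.2
    rw [Polynomial.mem_rootSet] at h6
    have h7 := h6.2
    simp only [F, map_sub, map_pow, aeval_X, map_one] at h7
    have h8 : ((i : 𝓞 L)) ^ p = (i : 𝓞 L) + 1 := by linear_combination h7
    have h9 := congrArg (fun x : 𝓞 L => ((x : L) : Ω)) h8
    simpa using h9
  · intro τ
    obtain ⟨g, hg⟩ := hb.2 τ
    refine ⟨g.liftNormal Ω, fun i => ?_⟩
    have h5 := g.liftNormal_commutes Ω ((i : 𝓞 L) : L)
    have h6 : τ i = g • i := by rw [← hg]; rfl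
    rw [h6]
    exact h5

/-- the roots of `X ^ p - X - 1` do not all have the same absolute value -/
theorem not_all_same {p : ℕ} (hp : 2 ≤ p) {ι : Type} [Fintype ι] (z : ι → ℂ)
    (hcard : Fintype.card ι = p) (hinj : Function.Injective z) (hz : ∀ i, z i ^ p = z i + 1)
    (hnorm : ∀ i j, ‖z i‖ = ‖z j‖) : False := by
  classical
  obtain ⟨θ, hθ0, hθ⟩ : ∃ θ : ℝ, 0 < θ ∧ θ ^ p = θ + 1 := by
    have hcont : ContinuousOn (fun x : ℝ => x ^ p - x - 1) (Set.Icc 1 2) := by fun_prop
    have h := intermediate_value_Icc (by norm_num : (1:ℝ) ≤ 2) hcont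
    have h1 : (0:ℝ) ∈ Set.Icc ((fun x : ℝ => x ^ p - x - 1) 1)
        ((fun x : ℝ => x ^ p - x - 1) 2) := by
      constructor
      · simp
      · have h2 : (2:ℝ)^2 ≤ 2 ^ p := pow_le_pow_right₀ (by norm_num) hp
        simp only
        linarith
    obtain ⟨x, hx, hx0⟩ := h h1
    refine ⟨x, by linarith [hx.1], ?_⟩
    simp only at hx0
    linarith
  set P : ℂ[X] := X ^ p - X - 1 with hP
  have hPm : P.Monic := monic_aux hp
  have hPd : P.natDegree = p := natDegree_aux hp
  have hroot : ∀ w : ℂ, w ∈ P.roots.toFinset ↔ w ^ p = w + 1 := by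
    intro w
    rw [Multiset.mem_toFinset, Polynomial.mem_roots hPm.ne_zero, IsRoot.def, hP]
    simp only [eval_sub, eval_pow, eval_X, eval_one]
    constructor
    · intro h; linear_combination h
    · intro h; linear_combination h
  have hsub : (Finset.univ.image z) ⊆ P.roots.toFinset := by
    intro w hw
    obtain ⟨i, -, rfl⟩ := Finset.mem_image.1 hw
    exact (hroot _).2 (hz i)
  have hcard2 : P.roots.toFinset.card ≤ (Finset.univ.image z).card := by
    rw [Finset.card_image_of_injective _ hinj, Finset.card_univ, hcard]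
    calc P.roots.toFinset.card ≤ Multiset.card P.roots := Multiset.toFinset_card_le _
      _ ≤ P.natDegree := Polynomial.card_roots' _
      _ = p := hPd
  have heq := Finset.eq_of_subset_of_card_le hsub hcard2
  have hθmem : (θ : ℂ) ∈ Finset.univ.image z := by
    rw [heq]
    exact (hroot _).2 (by exact_mod_cast hθ)
  obtain ⟨i0, -, hi0⟩ := Finset.mem_image.1 hθmem
  have hall : ∀ i, z i = θ := by
    intro i
    have h1 : ‖z i‖ = θ := by
      rw [hnorm i i0, hi0, Complex.norm_real, Real.norm_eq_abs, abs_of_pos hθ0]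
    have h2 : ‖z i + 1‖ = ‖z i‖ + ‖(1:ℂ)‖ := by
      rw [← hz i, norm_pow, h1, hθ, norm_one]
    have h3 : SameRay ℝ (z i) 1 := sameRay_iff_norm_add.2 h2
    have h4 := h3.norm_smul_eq
    rw [h1, norm_one, one_smul] at h4
    rw [← h4]
    simp
  obtain ⟨i, j, hij⟩ := Fintype.exists_pair_of_one_lt_card (α := ι) (by omega)
  exact hij (hinj ((hall i).trans (hall j).symm))

/-- two-transitivity of the symmetric group -/
theorem two_trans {ι : Type} [DecidableEq ι] {i j a b : ι} (hij : i ≠ j) (hab : a ≠ b) :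
    ∃ σ : Equiv.Perm ι, σ i = a ∧ σ j = b := by
  refine ⟨Equiv.swap (Equiv.swap i a j) b * Equiv.swap i a, ?_, ?_⟩
  · rw [Equiv.Perm.mul_apply, Equiv.swap_apply_left]
    refine Equiv.swap_apply_of_ne_of_ne ?_ hab
    intro h
    have h2 : Equiv.swap i a i = Equiv.swap i a j := by rw [Equiv.swap_apply_left]; exact h
    exact hij ((Equiv.swap i a).injective h2)
  · rw [Equiv.Perm.mul_apply, Equiv.swap_apply_left]

/-- products of powers of the roots, not all exponents equal, are not roots of unity -/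
theorem not_torsion {Ω : Type} [Field Ω] [CharZero Ω] [Algebra ℚ Ω] {p : ℕ} (hp : p.Prime)
    {ι : Type} [Fintype ι]
    (r : ι → Ω) (hcard : Fintype.card ι = p) (hr : Function.Injective r)
    (hrp : ∀ i, r i ^ p = r i + 1)
    (hτ : ∀ τ : Equiv.Perm ι, ∃ g : Ω ≃ₐ[ℚ] Ω, ∀ i, g (r i) = r (τ i))
    (φ : Ω →+* ℂ) (v : ι → ℤ) (i j : ι) (hv : v i ≠ v j) (m : ℕ) (hm : 0 < m) :
    (∏ k, r k ^ v k) ^ m ≠ 1 := by
  classical
  intro h
  have hr0 : ∀ k, r k ≠ 0 := by
    intro k h0
    have := hrp k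
    rw [h0, zero_pow hp.ne_zero, zero_add] at this
    exact zero_ne_one this
  have hz0 : ∀ k, ‖φ (r k)‖ ≠ 0 := fun k => norm_ne_zero_iff.2 ((_root_.map_ne_zero _).2 (hr0 k))
  set L : ι → ℝ := fun k => Real.log ‖φ (r k)‖ with hL
  have hrel : ∀ τ : Equiv.Perm ι, ∑ k, (v k : ℝ) * L (τ k) = 0 := by
    intro τ
    obtain ⟨g, hg⟩ := hτ τ
    have h1 : (∏ k, r (τ k) ^ v k) ^ m = 1 := by
      have h2 := congrArg g h
      rw [map_pow, map_prod, map_one] at h2
      simp only [map_zpow₀, hg] at h2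
      exact h2
    have h3 := congrArg (fun x => Real.log ‖φ x‖) h1
    simp only [map_pow, map_prod, map_zpow₀, norm_pow, norm_prod, norm_zpow, map_one, norm_one,
      Real.log_one] at h3
    rw [Real.log_pow, Real.log_prod (fun k _ => zpow_ne_zero _ (hz0 _))] at h3
    simp only [Real.log_zpow] at h3
    have hm' : (m : ℝ) ≠ 0 := by exact_mod_cast hm.ne'
    exact (mul_eq_zero.1 h3).resolve_left hm'
  have hij : i ≠ j := fun h => hv (by rw [h])
  have hkey : ∀ σ : Equiv.Perm ι, L (σ i) = L (σ j) := by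
    intro σ
    have h1 := hrel σ
    have h2 := hrel (σ * Equiv.swap i j)
    have h3 : ∑ k, (v k : ℝ) * L ((σ * Equiv.swap i j) k)
        = ∑ k, (v (Equiv.swap i j k) : ℝ) * L (σ k) := by
      refine Fintype.sum_equiv (Equiv.swap i j) _ _ fun k => ?_
      rw [Equiv.swap_apply_self]; rfl
    rw [h3] at h2
    have h4 : ∑ k, ((v k : ℝ) - v (Equiv.swap i j k)) * L (σ k) = 0 := by
      simp only [sub_mul, Finset.sum_sub_distrib, h1, h2, sub_zero]
    rw [Fintype.sum_eq_add i j hij (fun k hk => by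
      rw [Equiv.swap_apply_of_ne_of_ne hk.1 hk.2, sub_self, zero_mul])] at h4
    rw [Equiv.swap_apply_left, Equiv.swap_apply_right] at h4
    have h5 : ((v i : ℝ) - v j) * (L (σ i) - L (σ j)) = 0 := by linear_combination h4
    have h6 : (v i : ℝ) - v j ≠ 0 := sub_ne_zero.2 (by exact_mod_cast hv)
    exact sub_eq_zero.1 ((mul_eq_zero.1 h5).resolve_left h6)
  refine not_all_same hp.two_le (fun k => φ (r k)) hcard
    (fun a b hab => hr (φ.injective hab)) (fun k => by
      show φ (r k) ^ p = φ (r k) + 1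
      rw [← map_pow, hrp, map_add, map_one]) ?_
  intro a b
  rcases eq_or_ne a b with hab | hab
  · rw [hab]
  · obtain ⟨σ, h1, h2⟩ := two_trans hij hab
    have h3 := hkey σ
    rw [h1, h2] at h3
    exact Real.log_injOn_pos (lt_of_le_of_ne (norm_nonneg _) (hz0 a).symm)
      (lt_of_le_of_ne (norm_nonneg _) (hz0 b).symm) h3

end Pool.Agent.TH239.SM
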