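import Mathlib
import Pool.Agent.TH832.Smyth.Galois
import Pool.Agent.TH832.Smyth.Necess
import Pool.Agent.TH239.SM.Roots

set_option autoImplicit false

/-! Multiplicative relations between conjugates from permutation solutions. -/

namespace Pool.Agent.TH239.SM

open NumberField Module Polynomial
open Pool.Agent.TH832

theorem prod_zpow_sum {G : Type} [Field G] {ι : Type} (s : Finset ι) (a : G) (ha : a ≠ 0)
    (f : ι → ℤ) : ∏ i ∈ s, a ^ f i = a ^ ∑ i ∈ s, f i := by
  classical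
  induction s using Finset.induction_on with
  | empty => simp
  | insert x s hx ih => rw [Finset.prod_insert hx, Finset.sum_insert hx, zpow_add₀ ha, ih]

/-- integral version of a permutation solution -/
theorem int_sol {n : ℕ} (b : Fin n → ℤ) (h : Smyth.PermSol (fun i => (b i : ℚ))) :
    ∃ (T : Type) (_ : Fintype T) (π : Fin n → Equiv.Perm T) (v : T → ℤ), v ≠ 0 ∧
      ∀ t, ∑ i, b i * v (π i t) = 0 := by
  obtain ⟨T, hT, π, y, hy, hsol⟩ := h
  obtain ⟨D, hD⟩ := IsLocalization.exist_integer_multiples_of_finite (nonZeroDivisors ℤ) y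
  choose v hv using hD
  have hD0 : ((D : ℤ) : ℚ) ≠ 0 := by
    have := nonZeroDivisors.coe_ne_zero D
    exact_mod_cast this
  have hv' : ∀ t, (v t : ℚ) = ((D : ℤ) : ℚ) * y t := by
    intro t
    have h1 := hv t
    simpa [zsmul_eq_mul] using h1
  refine ⟨T, hT, π, v, ?_, ?_⟩
  · intro h0
    apply hy
    funext t
    have h1 := hv' t
    rw [h0, Pi.zero_apply, Int.cast_zero] at h1
    exact (mul_eq_zero.1 h1.symm).resolve_left hD0
  · intro t
    have h1 : ((∑ i, b i * v (π i t) : ℤ) : ℚ) = 0 := by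
      push_cast
      have h2 : ∑ i, (b i : ℚ) * (v (π i t) : ℚ) = ((D : ℤ) : ℚ) * ∑ i, (b i : ℚ) * y (π i t) := by
        rw [Finset.mul_sum]
        refine Finset.sum_congr rfl fun i _ => ?_
        rw [hv']; ring
      rw [h2, hsol, mul_zero]
    exact_mod_cast h1

/-- a multiplicative solution from a permutation solution -/
theorem mult_of_perm_aux (K : Type) [Field K] [NumberField K] {n : ℕ} (b : Fin n → ℤ) (h : Smyth.PermSol (fun i => (b i : ℚ))) :
    ∃ α : Fin n → ℂ, (∀ i, α i ≠ 0) ∧ (∀ i, IsAlgebraic ℚ (α i)) ∧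
      (∀ i j, minpoly ℚ (α i) = minpoly ℚ (α j)) ∧ ∏ i, α i ^ b i = 1 ∧
      ∀ i, ∀ m : ℕ, 0 < m → α i ^ m ≠ 1 := by
  classical
  obtain ⟨T, hT, π, v, hv, hsol⟩ := int_sol b h
  obtain ⟨p, hp1, hp⟩ := Nat.exists_infinite_primes (Fintype.card T + 1)
  have hint : Algebra.IsAlgebraic ℚ (AlgebraicClosure K) := Algebra.IsAlgebraic.trans ℚ K _
  have hcl : IsAlgClosure ℚ (AlgebraicClosure K) := ⟨inferInstance, hint⟩
  have hnorm : Normal ℚ (AlgebraicClosure K) := IsAlgClosure.normal ℚ _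
  obtain ⟨ι, hι, r, hcard, hr, hrp, hτ⟩ := roots_rat (AlgebraicClosure K) hp
  obtain ⟨f⟩ : Nonempty (T ↪ ι) := Function.Embedding.nonempty_of_card_le (by omega)
  set V : ι → ℤ := Function.extend f v 0 with hV
  have hVf : ∀ t, V (f t) = v t := fun t => f.injective.extend_apply _ _ _
  have hV0 : ∀ s, s ∉ Set.range f → V s = 0 := fun s hs =>
    Function.extend_apply' _ _ _ (fun h => hs h)
  set ρ : Fin n → Equiv.Perm ι := fun i => (π i).viaFintypeEmbedding f with hρ
  have hrel : ∀ s, ∑ i, b i * V (ρ i s) = 0 := by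
    intro s
    by_cases hs : s ∈ Set.range f
    · obtain ⟨t, rfl⟩ := hs
      rw [← hsol t]
      refine Finset.sum_congr rfl fun i _ => ?_
      rw [hρ]
      simp only
      rw [Equiv.Perm.viaFintypeEmbedding_apply_image, hVf]
    · refine Finset.sum_eq_zero fun i _ => ?_
      rw [hρ]
      simp only
      rw [Equiv.Perm.viaFintypeEmbedding_apply_notMem_range _ _ hs, hV0 s hs, mul_zero]
  obtain ⟨t0, ht0⟩ : ∃ t, v t ≠ 0 := by
    by_contra hcon
    push Not at hcon
    exact hv (funext hcon)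
  obtain ⟨s0, hs0⟩ : ∃ s, s ∉ Set.range f := by
    by_contra hcon
    push Not at hcon
    have h1 : Function.Surjective f := fun s => hcon s
    have h2 := Fintype.card_le_of_surjective f h1
    omega
  have hne : V (f t0) ≠ V s0 := by
    rw [hVf, hV0 s0 hs0]; exact ht0
  have hr0 : ∀ k, r k ≠ 0 := by
    intro k h0
    have := hrp k
    rw [h0, zero_pow hp.ne_zero, zero_add] at this
    exact zero_ne_one this
  choose g hg using fun i => hτ (ρ i)⁻¹
  set β : AlgebraicClosure K := ∏ s, r s ^ V s with hβ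
  have hβ0 : β ≠ 0 := Finset.prod_ne_zero_iff.2 fun s _ => zpow_ne_zero _ (hr0 s)
  have hgβ : ∀ j, g j β = ∏ s, r s ^ V (ρ j s) := by
    intro j
    rw [hβ, map_prod]
    refine (Fintype.prod_equiv (ρ j) _ _ fun s => ?_).symm
    have h2 : (ρ j)⁻¹ (ρ j s) = s := (ρ j).symm_apply_apply s
    rw [map_zpow₀, hg, h2]
  have hprod : ∏ j, (g j β) ^ b j = 1 := by
    simp only [hgβ, ← Finset.prod_zpow, ← zpow_mul]
    rw [Finset.prod_comm]
    refine Finset.prod_eq_one fun s _ => ?_
    rw [prod_zpow_sum _ _ (hr0 s)]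
    have h1 : ∑ j, V (ρ j s) * b j = 0 := by
      rw [← hrel s]
      exact Finset.sum_congr rfl fun i _ => mul_comm _ _
    rw [h1, zpow_zero]
  set φ : AlgebraicClosure K →ₐ[ℚ] ℂ := IsAlgClosed.lift with hφ
  refine ⟨fun j => φ (g j β), ?_, ?_, ?_, ?_, ?_⟩
  · intro j
    exact (_root_.map_ne_zero _).2 ((_root_.map_ne_zero _).2 hβ0)
  · intro j
    exact (isAlgebraic_algHom_iff φ φ.injective).2 (Algebra.IsAlgebraic.isAlgebraic _)
  · intro i j
    rw [minpoly.algHom_eq φ φ.injective, minpoly.algHom_eq φ φ.injective, minpoly.algEquiv_eq,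
      minpoly.algEquiv_eq]
  · have h1 := congrArg φ hprod
    rw [map_prod, map_one] at h1
    simp only [map_zpow₀] at h1
    exact h1
  · intro j m hm h1
    have h1' : φ (g j β) ^ m = 1 := h1
    rw [← map_pow, ← map_pow] at h1'
    have h2 : g j (β ^ m) = 1 := φ.injective (show φ (g j (β ^ m)) = φ 1 by rw [h1', map_one])
    have h3 : β ^ m = 1 := (g j).injective (show g j (β ^ m) = g j 1 by rw [h2, map_one])
    exact not_torsion hp r hcard hr hrp hτ (φ : AlgebraicClosure K →+* ℂ) V (f t0) s0 hne m hm h3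

/-- a multiplicative solution from a permutation solution -/
theorem mult_of_perm {n : ℕ} (b : Fin n → ℤ) (h : Smyth.PermSol (fun i => (b i : ℚ))) :
    ∃ α : Fin n → ℂ, (∀ i, α i ≠ 0) ∧ (∀ i, IsAlgebraic ℚ (α i)) ∧
      (∀ i j, minpoly ℚ (α i) = minpoly ℚ (α j)) ∧ ∏ i, α i ^ b i = 1 ∧
      ∀ i, ∀ m : ℕ, 0 < m → α i ^ m ≠ 1 :=
  mult_of_perm_aux ℚ b h

end Pool.Agent.TH239.SM
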