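import Mathlib
import Pool.Agent.TH832.Smyth.Unity
import Pool.Agent.TH832.Smyth.Necess

set_option autoImplicit false

/-! Necessity of Smyth's criteria for multiplicative relations. -/

namespace Pool.Agent.TH239.SM

open NumberField Module Polynomial
open Pool.Agent.TH832

theorem exists_hom {K : Type} [Field K] [NumberField K] (x : Kˣ)
    (hx : ∀ m : ℕ, 0 < m → (x : K) ^ m ≠ 1) :
    ∃ ψ : Additive Kˣ →+ ℝ, ψ (Additive.ofMul x) ≠ 0 := by
  by_cases hint : ∀ v : IsDedekindDomain.HeightOneSpectrum (𝓞 K), v.valuation K (x : K) ≤ 1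
  · obtain ⟨a, ha⟩ :=
      IsDedekindDomain.HeightOneSpectrum.mem_integers_of_valuation_le_one K (x : K) hint
    by_contra hcon
    push Not at hcon
    have h1 : ∀ φ : K →+* ℂ, ‖φ (x : K)‖ = 1 := by
      intro φ
      have hpos : ∀ u : Kˣ, ‖φ (u : K)‖ ≠ 0 := fun u =>
        norm_ne_zero_iff.2 ((_root_.map_ne_zero _).2 u.ne_zero)
      set ψ : Additive Kˣ →+ ℝ := AddMonoidHom.mk' (fun u : Additive Kˣ =>
          Real.log ‖φ ((Additive.toMul u : Kˣ) : K)‖) (by
            intro u w
            show Real.log ‖φ (((Additive.toMul u * Additive.toMul w : Kˣ)) : K)‖ = _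
            rw [Units.val_mul, map_mul, norm_mul]
            exact Real.log_mul (hpos _) (hpos _)) with hψ
      have h2 : Real.log ‖φ (x : K)‖ = 0 := hcon ψ
      rcases Real.log_eq_zero.1 h2 with h3 | h3 | h3
      · exact absurd h3 (hpos x)
      · exact h3
      · have := norm_nonneg (φ (x : K)); linarith
    have h2 : IsIntegral ℤ (x : K) := by
      rw [← ha]; exact RingOfIntegers.isIntegral_coe a
    obtain ⟨m, hm, hm2⟩ := NumberField.Embeddings.pow_eq_one_of_norm_eq_one K ℂ h2 h1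
    exact hx m hm hm2
  · push Not at hint
    obtain ⟨v, hv⟩ := hint
    have hpos : ∀ u : Kˣ, v.valuation K (u : K) ≠ 0 := fun u =>
      (Valuation.ne_zero_iff _).2 u.ne_zero
    refine ⟨AddMonoidHom.mk' (fun u : Additive Kˣ =>
      ((WithZero.log (v.valuation K ((Additive.toMul u : Kˣ) : K)) : ℤ) : ℝ)) (by
        intro u w
        show ((WithZero.log (v.valuation K (((Additive.toMul u * Additive.toMul w : Kˣ)) : K)) : ℤ) : ℝ) = _
        rw [Units.val_mul, map_mul, WithZero.log_mul (hpos _) (hpos _)]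
        push_cast
        rfl), ?_⟩
    show ((WithZero.log (v.valuation K (x : K)) : ℤ) : ℝ) ≠ 0
    have h1 : WithZero.log (1 : WithZero (Multiplicative ℤ)) < WithZero.log (v.valuation K (x : K)) :=
      (WithZero.log_lt_log one_ne_zero (hpos x)).2 hv
    rw [WithZero.log_one] at h1
    exact_mod_cast h1.ne'

theorem perm_of_mult {n : ℕ} (hn : 0 < n) (c : Fin n → ℤ) (α : Fin n → ℂ) (h0 : ∀ i, α i ≠ 0)
    (halg : ∀ i, IsAlgebraic ℚ (α i)) (hmin : ∀ i j, minpoly ℚ (α i) = minpoly ℚ (α j))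
    (hprod : ∏ i, α i ^ c i = 1) (hroot : ∀ i, ∀ m : ℕ, 0 < m → α i ^ m ≠ 1) :
    Smyth.PermSol (fun i => (c i : ℚ)) := by
  classical
  set i0 : Fin n := ⟨0, hn⟩ with hi0
  set P : ℚ[X] := minpoly ℚ (α i0) with hP
  have hP0 : P ≠ 0 := minpoly.ne_zero (halg i0).isIntegral
  set L := IntermediateField.adjoin ℚ (P.rootSet ℂ) with hL
  have h1 : IsSplittingField ℚ L P :=
    IntermediateField.adjoin_rootSet_isSplittingField (IsAlgClosed.splits _)
  have h2 : FiniteDimensional ℚ L := IsSplittingField.finiteDimensional L P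
  have h3 : NumberField L := ⟨⟩
  have h4 : Normal ℚ L := Normal.of_isSplittingField P
  have hmem : ∀ i, α i ∈ L := by
    intro i
    apply IntermediateField.subset_adjoin
    rw [mem_rootSet]
    refine ⟨hP0, ?_⟩
    rw [hP, hmin i0 i]
    exact minpoly.aeval _ _
  set a : Fin n → L := fun i => ⟨α i, hmem i⟩ with ha
  have ha0 : ∀ i, a i ≠ 0 := fun i h => h0 i (congrArg (fun x : L => (x : ℂ)) h)
  have hmina : ∀ i, minpoly ℚ (a i) = minpoly ℚ (α i) := fun i =>
    (minpoly.algebraMap_eq (algebraMap L ℂ).injective (a i)).symm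
  have hσ' : ∀ i, ∃ g : L ≃ₐ[ℚ] L, g (a i0) = a i := fun i =>
    Smyth.conjs_of_minpoly (by rw [hmina, hmina]; exact hmin _ _)
  choose σ hσ using hσ'
  have hfin : Fintype (L ≃ₐ[ℚ] L) := Fintype.ofFinite _
  set u : Fin n → Lˣ := fun i => Units.mk0 (a i) (ha0 i) with hu
  obtain ⟨ψ, hψ⟩ := exists_hom (u i0) (by
    intro m hm h
    apply hroot i0 m hm
    have h5 := congrArg (fun x : L => (x : ℂ)) h
    simpa [hu, ha] using h5)
  set y : (L ≃ₐ[ℚ] L) → ℝ := fun τ =>
    ψ (Additive.ofMul (Units.map (MonoidHomClass.toMonoidHom τ) (u i0))) with hy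
  refine Smyth.descend (Ω := ℝ) (fun i => (c i : ℚ)) (T := (L ≃ₐ[ℚ] L))
    (fun i => Equiv.mulRight (σ i)) y ?_ ?_
  · intro h
    apply hψ
    have h5 := congrFun h 1
    rw [hy] at h5
    simp only [Pi.zero_apply] at h5
    rw [← h5]
    congr 2
  · intro τ
    have e1 : ∀ i, y (τ * σ i) =
        ψ (Additive.ofMul (Units.map (MonoidHomClass.toMonoidHom τ) (u i))) := by
      intro i
      rw [hy]
      simp only
      congr 2
      apply Units.ext
      show (τ * σ i) (a i0) = τ (a i)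
      rw [AlgEquiv.mul_apply, hσ]
    have e2 : ∏ i, (u i) ^ (c i) = 1 := by
      apply Units.ext
      apply Subtype.ext
      have h6 : algebraMap L ℂ (((∏ i, (u i) ^ (c i) : Lˣ) : L)) = ∏ i, α i ^ c i := by
        rw [Units.coe_prod, map_prod]
        refine Finset.prod_congr rfl fun i _ => ?_
        rw [Units.val_zpow_eq_zpow_val, map_zpow₀]
        rfl
      show algebraMap L ℂ (((∏ i, (u i) ^ (c i) : Lˣ) : L)) = _
      rw [h6, hprod]
      simp
    have e3 : ∑ i, (c i : ℝ) * y (τ * σ i) = 0 := by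
      calc ∑ i, (c i : ℝ) * y (τ * σ i)
          = ∑ i, c i • ψ (Additive.ofMul (Units.map (MonoidHomClass.toMonoidHom τ) (u i))) := by
            refine Finset.sum_congr rfl fun i _ => ?_
            rw [e1, zsmul_eq_mul]
        _ = ψ (Additive.ofMul (Units.map (MonoidHomClass.toMonoidHom τ) (∏ i, u i ^ c i))) := by
            rw [map_prod, ofMul_prod, map_sum]
            refine Finset.sum_congr rfl fun i _ => ?_
            rw [map_zpow, ofMul_zpow, map_zsmul]
        _ = 0 := by rw [e2, map_one, ofMul_one, map_zero]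
    rw [← e3]
    refine Finset.sum_congr rfl fun i _ => ?_
    simp

section crit

variable {n : ℕ} (b : Fin n → ℤ) {T : Type} [Fintype T] (π : Fin n → Equiv.Perm T) (v : T → ℤ)
  (hv : v ≠ 0) (hsol : ∀ t, ∑ i, b i * v (π i t) = 0)

include hv hsol

theorem arch_nec (i : Fin n) : |b i| ≤ ∑ j ∈ Finset.univ.erase i, |b j| := by
  classical
  obtain ⟨t0, ht0⟩ : ∃ t, v t ≠ 0 := by
    by_contra hcon
    push Not at hcon
    exact hv (funext hcon)
  have hne : Nonempty T := ⟨t0⟩
  obtain ⟨t1, ht1⟩ := Finite.exists_max (fun t => |v t|)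
  have hM : 0 < |v t1| := lt_of_lt_of_le (abs_pos.2 ht0) (ht1 t0)
  have h1 := hsol ((π i).symm t1)
  rw [← Finset.add_sum_erase _ _ (Finset.mem_univ i), Equiv.apply_symm_apply] at h1
  have h2 : b i * v t1 = -∑ j ∈ Finset.univ.erase i, b j * v (π j ((π i).symm t1)) := by
    linarith
  have h3 : |b i| * |v t1| ≤ (∑ j ∈ Finset.univ.erase i, |b j|) * |v t1| := by
    rw [← abs_mul, h2, abs_neg, Finset.sum_mul]
    refine (Finset.abs_sum_le_sum_abs _ _).trans (Finset.sum_le_sum fun j _ => ?_)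
    rw [abs_mul]
    exact mul_le_mul_of_nonneg_left (ht1 _) (abs_nonneg _)
  exact le_of_mul_le_mul_right h3 hM

omit [Fintype T] in
theorem prime_nec (i : Fin n) (q : ℕ) (hq : q.Prime) (hqi : ¬ (q : ℤ) ∣ b i)
    (hqj : ∀ j, j ≠ i → (q : ℤ) ∣ b j) : False := by
  classical
  have hqp : Prime (q : ℤ) := Nat.prime_iff_prime_int.1 hq
  have key : ∀ k : ℕ, ∀ t, (q : ℤ) ^ k ∣ v t := by
    intro k
    induction k with
    | zero => intro t; simp
    | succ k ih =>
      intro t
      have h1 := hsol ((π i).symm t)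
      rw [← Finset.add_sum_erase _ _ (Finset.mem_univ i), Equiv.apply_symm_apply] at h1
      have h2 : b i * v t = -∑ j ∈ Finset.univ.erase i, b j * v (π j ((π i).symm t)) := by
        linarith
      have h3 : (q : ℤ) ^ (k + 1) ∣ b i * v t := by
        rw [h2, dvd_neg]
        refine Finset.dvd_sum fun j hj => ?_
        rw [pow_succ']
        exact mul_dvd_mul (hqj j (Finset.ne_of_mem_erase hj)) (ih _)
      exact hqp.pow_dvd_of_dvd_mul_left _ hqi h3
  apply hv
  funext t
  refine Int.eq_zero_of_abs_lt_dvd (key (v t).natAbs t) ?_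
  rw [Int.abs_eq_natAbs]
  exact_mod_cast Nat.lt_pow_self hq.one_lt

end crit

end Pool.Agent.TH239.SM
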