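import Mathlib
import Pool.Agent.TH832.Smyth.Unity
import Pool.Agent.TH832.Smyth.Strict

set_option autoImplicit false

/-! Smyth's criteria over the integers give a permutation solution. -/

namespace Pool.Agent.TH239.SM

open NumberField Module Polynomial
open Pool.Agent.TH832

theorem perm_of_crit {n : ℕ} (b : Fin n → ℤ) (hn : 0 < n)
    (hA : ∀ i, |b i| ≤ ∑ j ∈ Finset.univ.erase i, |b j|)
    (hB : ∀ i, ∃ c : Fin n → ℤ, b i = ∑ j ∈ Finset.univ.erase i, c j * b j) :
    Smyth.PermSol (fun i => (b i : ℚ)) := by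
  classical
  by_cases hs : ∀ i, |b i| < ∑ j ∈ Finset.univ.erase i, |b j|
  · have hz : NeZero n := ⟨hn.ne'⟩
    have h1 : Smyth.Arch (K := ℚ) (fun i => ((b i : ℤ) : 𝓞 ℚ)) := by
      intro σ i
      have h2 : ∀ j, ‖σ (((b j : ℤ) : 𝓞 ℚ) : ℚ)‖ = ((|b j| : ℤ) : ℝ) := by
        intro j
        have h3 : (((b j : ℤ) : 𝓞 ℚ) : ℚ) = ((b j : ℤ) : ℚ) := by simp
        rw [h3, map_intCast, Complex.norm_intCast]
        simp
      simp only [h2]
      exact_mod_cast hs i
    have h2 : Smyth.Nonarch (K := ℚ) (fun i => ((b i : ℤ) : 𝓞 ℚ)) := by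
      intro i
      obtain ⟨c, hc⟩ := hB i
      refine ⟨fun j => ((c j : ℤ) : 𝓞 ℚ), ?_⟩
      have h3 := congrArg (fun z : ℤ => (z : 𝓞 ℚ)) hc
      simpa using h3
    have h3 := Smyth.strict_perm h1 h2
    have h4 : (fun i => (((b i : ℤ) : 𝓞 ℚ) : ℚ)) = fun i => (b i : ℚ) := by
      funext i; simp
    rw [h4] at h3
    exact h3
  · push Not at hs
    obtain ⟨i, hi⟩ := hs
    have heq : |b i| = ∑ j ∈ Finset.univ.erase i, |b j| := le_antisymm (hA i) hi
    set sg : ℤ → ℚ := fun x => if x < 0 then -1 else 1 with hsg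
    have hsgm : ∀ x : ℤ, (x : ℚ) * sg x = ((|x| : ℤ) : ℚ) := by
      intro x
      simp only [hsg]
      split_ifs with h
      · rw [abs_of_neg h]; push_cast; ring
      · rw [abs_of_nonneg (not_lt.1 h)]; ring
    have hsg2 : ∀ x : ℤ, sg x ^ 2 = 1 := by
      intro x
      simp only [hsg]
      split_ifs <;> norm_num
    refine Smyth.unity_perm (Ω := ℚ) (fun i => (b i : ℚ))
      (fun j => if j = i then sg (b j) else - sg (b j)) ?_ ?_
    · intro j
      refine ⟨2, by norm_num, ?_⟩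
      split_ifs
      · exact hsg2 _
      · rw [neg_sq]; exact hsg2 _
    · rw [← Finset.add_sum_erase _ _ (Finset.mem_univ i)]
      have h1 : ∑ j ∈ Finset.univ.erase i, algebraMap ℚ ℚ (b j : ℚ) *
          (if j = i then sg (b j) else - sg (b j)) = - ∑ j ∈ Finset.univ.erase i, ((|b j| : ℤ) : ℚ) := by
        rw [← Finset.sum_neg_distrib]
        refine Finset.sum_congr rfl fun j hj => ?_
        rw [if_neg (Finset.ne_of_mem_erase hj), ← hsgm]
        simp
      rw [h1, if_pos rfl]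
      have h2 : algebraMap ℚ ℚ (b i : ℚ) * sg (b i) = ((|b i| : ℤ) : ℚ) := by
        rw [← hsgm]; simp
      rw [h2, heq]
      push_cast
      ring

/-- a combination from divisibility by the gcd -/
theorem comb_of_prime {n : ℕ} (b : Fin n → ℤ) (i : Fin n)
    (hg : ∀ q : ℕ, q.Prime → ¬ ∀ j, (q : ℤ) ∣ b j)
    (h : ∀ q : ℕ, q.Prime → (∀ j, j ≠ i → (q : ℤ) ∣ b j) → (q : ℤ) ∣ b i) :
    ∃ c : Fin n → ℤ, b i = ∑ j ∈ Finset.univ.erase i, c j * b j := by
  classical
  set I : Ideal ℤ := Ideal.span (b '' {j | j ≠ i}) with hI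
  have htop : I = ⊤ := by
    by_contra hne
    obtain ⟨P, hP, hIP⟩ := Ideal.exists_le_maximal I hne
    obtain ⟨x, hx⟩ := (IsPrincipalIdealRing.principal P).principal
    have hx' : P = Ideal.span {x} := hx
    have hx0 : x ≠ 0 := by
      intro h0
      rw [h0] at hx'
      have h1 : P = ⊥ := by rw [hx']; simp
      exact Ring.ne_bot_of_isMaximal_of_not_isField hP Int.not_isField h1
    have hxp : Prime x := (Ideal.span_singleton_prime hx0).1 (hx' ▸ hP.isPrime)
    have hq : (x.natAbs).Prime := Int.prime_iff_natAbs_prime.1 hxp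
    have hdv : ∀ j, j ≠ i → ((x.natAbs : ℕ) : ℤ) ∣ b j := by
      intro j hj
      have h1 : b j ∈ P := hIP (Ideal.subset_span ⟨j, hj, rfl⟩)
      rw [hx', Ideal.mem_span_singleton] at h1
      exact Int.natAbs_dvd.2 h1
    refine hg _ hq fun j => ?_
    by_cases hj : j = i
    · rw [hj]; exact h _ hq hdv
    · exact hdv j hj
  have hmem : b i ∈ I := by rw [htop]; exact Submodule.mem_top
  rw [hI, Ideal.span, Finsupp.mem_span_image_iff_linearCombination] at hmem
  obtain ⟨l, hl, hl2⟩ := hmem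
  refine ⟨fun j => l j, ?_⟩
  rw [← hl2, Finsupp.linearCombination_apply, Finsupp.sum]
  simp only [smul_eq_mul]
  refine Finset.sum_subset (fun j hj => ?_) (fun j _ hj => ?_)
  · exact Finset.mem_erase.2 ⟨hl hj, Finset.mem_univ _⟩
  · rw [Finsupp.notMem_support_iff.1 hj, zero_mul]

end Pool.Agent.TH239.SM
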